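import Mathlib
import Pool.Graph.R_seed8.H586R3.AInfYs

set_option autoImplicit false

open Set Topology Filter Complex

namespace Pool.Agent.KS6_17.BVS

open Pool.Agent.H586R3

/-- a quotient of power series whose coefficients grow at most like a weight -/
lemma growth_w {a b : ℕ → ℂ} {m : ℕ} (hm : b m ≠ 0) (hb : ∀ i < m, b i = 0) {B : ℝ}
    (hB : ∀ i, ‖b i‖ ≤ B ^ (i + 1)) {R : ℝ} (hR0 : 0 ≤ R) (v : ℕ → ℝ) (hv : Monotone v)
    (hv1 : ∀ j, 1 ≤ v j)
    (hR : ∀ j, ‖∑ i ∈ Finset.range (j + 1), b i * a (j - i)‖ ≤ R ^ (j + 1) * v j) :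
    ∃ S : ℕ, ∀ j, ‖a j‖ ≤ (S : ℝ) ^ (j + 1) * v (j + m) := by
  set β : ℝ := ‖b m‖ with hβ
  have hβ0 : 0 < β := norm_pos_iff.2 hm
  have hB0 : 0 ≤ B := by
    have := (norm_nonneg _).trans (hB 0)
    simpa using this
  obtain ⟨S, hS⟩ := exists_nat_ge (max (max R (R * (2 * R ^ m / β))) (max (2 * B) (4 * B ^ (m + 2) / β)))
  have hS1 : R ≤ S := (le_max_left _ _).trans ((le_max_left _ _).trans hS)
  have hS2 : R * (2 * R ^ m / β) ≤ S := (le_max_right _ _).trans ((le_max_left _ _).trans hS)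
  have hS3 : 2 * B ≤ S := (le_max_left _ _).trans ((le_max_right _ _).trans hS)
  have hS4 : 4 * B ^ (m + 2) / β ≤ S := (le_max_right _ _).trans ((le_max_right _ _).trans hS)
  have hS0 : (0 : ℝ) ≤ S := Nat.cast_nonneg _
  refine ⟨S, fun j => ?_⟩
  induction j using Nat.strong_induction_on with
  | _ j ih =>
    have hvj : 0 < v (j + m) := lt_of_lt_of_le one_pos (hv1 _)
    have h1 := hR (m + j)
    rw [show m + j + 1 = m + (j + 1) by ring, Finset.sum_range_add] at h1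
    have h2 : ∑ x ∈ Finset.range m, b x * a (m + j - x) = 0 := by
      apply Finset.sum_eq_zero
      intro x hx
      rw [hb x (Finset.mem_range.1 hx), zero_mul]
    rw [h2, zero_add, Finset.sum_range_succ'] at h1
    have h3 : b (m + 0) * a (m + j - (m + 0)) = b m * a j := by simp
    rw [h3, show m + j = j + m by ring] at h1
    have h4 : ‖∑ k ∈ Finset.range j, b (m + (k + 1)) * a (j + m - (m + (k + 1)))‖ ≤
        B ^ (m + 2) * (2 * (S : ℝ) ^ j) * v (j + m) := by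
      refine (norm_sum_le _ _).trans ?_
      have h5 : ∀ k ∈ Finset.range j, ‖b (m + (k + 1)) * a (j + m - (m + (k + 1)))‖ ≤
          B ^ (m + 2) * v (j + m) * (B ^ k * (S : ℝ) ^ (j - k)) := by
        intro k hk
        have hk' := Finset.mem_range.1 hk
        rw [norm_mul]
        have e1 : j + m - (m + (k + 1)) = j - (k + 1) := by omega
        rw [e1]
        have e2 := ih (j - (k + 1)) (by omega)
        have e3 := hB (m + (k + 1))
        have e4 : j - (k + 1) + 1 = j - k := by omega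
        rw [e4] at e2
        have e5 : ‖a (j - (k + 1))‖ ≤ (S : ℝ) ^ (j - k) * v (j + m) :=
          e2.trans (mul_le_mul_of_nonneg_left (hv (by omega)) (pow_nonneg hS0 _))
        calc ‖b (m + (k + 1))‖ * ‖a (j - (k + 1))‖
            ≤ B ^ (m + (k + 1) + 1) * ((S : ℝ) ^ (j - k) * v (j + m)) :=
              mul_le_mul e3 e5 (norm_nonneg _) (pow_nonneg hB0 _)
          _ = B ^ (m + 2) * v (j + m) * (B ^ k * (S : ℝ) ^ (j - k)) := by ring
      refine (Finset.sum_le_sum h5).trans ?_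
      rw [← Finset.mul_sum]
      have h6 := mul_le_mul_of_nonneg_left (geom_aux hB0 hS3 j)
        (mul_nonneg (pow_nonneg hB0 (m + 2)) hvj.le)
      refine h6.trans (le_of_eq ?_)
      ring
    have h6 : β * ‖a j‖ ≤ R ^ (m + (j + 1)) * v (j + m) +
        B ^ (m + 2) * (2 * (S : ℝ) ^ j) * v (j + m) := by
      rw [hβ, ← norm_mul]
      have e5 : b m * a j = (∑ k ∈ Finset.range j, b (m + (k + 1)) * a (j + m - (m + (k + 1))) + b m * a j)
        - ∑ k ∈ Finset.range j, b (m + (k + 1)) * a (j + m - (m + (k + 1))) := by ring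
      rw [e5]
      exact (norm_sub_le _ _).trans (add_le_add h1 h4)
    have h7 : R ^ (m + (j + 1)) ≤ β / 2 * (S : ℝ) ^ (j + 1) := by
      have e6 : R ^ (m + (j + 1)) = β / 2 * ((R * (2 * R ^ m / β)) * R ^ j) := by
        field_simp
        ring
      rw [e6, pow_succ' (S : ℝ) j]
      apply mul_le_mul_of_nonneg_left _ (by positivity)
      exact mul_le_mul hS2 (pow_le_pow_left₀ hR0 hS1 j) (pow_nonneg hR0 _) hS0
    have h8 : B ^ (m + 2) * (2 * (S : ℝ) ^ j) ≤ β / 2 * (S : ℝ) ^ (j + 1) := by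
      have e7 : B ^ (m + 2) * (2 * (S : ℝ) ^ j) = β / 2 * ((4 * B ^ (m + 2) / β) * (S : ℝ) ^ j) := by
        field_simp
        ring
      rw [e7, pow_succ' (S : ℝ) j]
      apply mul_le_mul_of_nonneg_left _ (by positivity)
      exact mul_le_mul_of_nonneg_right hS4 (pow_nonneg hS0 _)
    have h9 : β * ‖a j‖ ≤ β * ((S : ℝ) ^ (j + 1) * v (j + m)) := by
      refine h6.trans ?_
      rw [← add_mul]
      have h10 : (R ^ (m + (j + 1)) + B ^ (m + 2) * (2 * (S : ℝ) ^ j)) ≤ β * (S : ℝ) ^ (j + 1) := by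
        linarith
      refine (mul_le_mul_of_nonneg_right h10 hvj.le).trans (le_of_eq ?_)
      ring
    exact le_of_mul_le_mul_left h9 hβ0

variable {G : Set ℂ}

/-- the jets whose derivatives at `ζ` grow at most like a shifted weight -/
def Yw (w : ℕ → ℝ) (hw : Monotone w) (hw1 : ∀ j, 1 ≤ w j) (ζ : closure G) :
    Submodule ℂ (JetSp G) where
  carrier := {g | ∃ S m : ℕ, ∀ j : ℕ,
    ‖evL j ζ g‖ ≤ (S : ℝ) ^ (j + 1) * (j.factorial : ℝ) * w (j + m)}
  zero_mem' := by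
    refine ⟨0, 0, fun j => ?_⟩
    rw [map_zero]
    simp
  add_mem' := by
    rintro g h ⟨S, m, hS⟩ ⟨R, n, hR⟩
    refine ⟨S + R, m + n, fun j => ?_⟩
    rw [map_add]
    have hw0 : 0 < w (j + (m + n)) := lt_of_lt_of_le one_pos (hw1 _)
    have h1 : ‖evL j ζ g‖ ≤ (S : ℝ) ^ (j + 1) * (j.factorial : ℝ) * w (j + (m + n)) :=
      (hS j).trans (mul_le_mul_of_nonneg_left (hw (by omega)) (by positivity))
    have h2 : ‖evL j ζ h‖ ≤ (R : ℝ) ^ (j + 1) * (j.factorial : ℝ) * w (j + (m + n)) :=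
      (hR j).trans (mul_le_mul_of_nonneg_left (hw (by omega)) (by positivity))
    refine (norm_add_le _ _).trans ((add_le_add h1 h2).trans ?_)
    rw [← add_mul, ← add_mul]
    apply mul_le_mul_of_nonneg_right _ hw0.le
    apply mul_le_mul_of_nonneg_right _ (Nat.cast_nonneg _)
    push_cast
    exact pow_add_pow_le (Nat.cast_nonneg _) (Nat.cast_nonneg _) (by omega)
  smul_mem' := by
    rintro c g ⟨S, m, hS⟩
    obtain ⟨N, hN⟩ := exists_nat_ge ‖c‖
    refine ⟨(N + 1) * S, m, fun j => ?_⟩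
    rw [map_smul, smul_eq_mul, norm_mul]
    have h2 : ‖c‖ ≤ ((N : ℝ) + 1) ^ (j + 1) := by
      have h3 : (1 : ℝ) ≤ (N : ℝ) + 1 := by
        have : (0 : ℝ) ≤ N := Nat.cast_nonneg _
        linarith
      calc ‖c‖ ≤ (N : ℝ) + 1 := by linarith
        _ ≤ ((N : ℝ) + 1) ^ (j + 1) := le_self_pow₀ h3 (by omega)
    calc ‖c‖ * ‖evL j ζ g‖
        ≤ ((N : ℝ) + 1) ^ (j + 1) * ((S : ℝ) ^ (j + 1) * (j.factorial : ℝ) * w (j + m)) :=
          mul_le_mul h2 (hS j) (norm_nonneg _) (by positivity)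
      _ = (((N + 1) * S : ℕ) : ℝ) ^ (j + 1) * (j.factorial : ℝ) * w (j + m) := by
          push_cast; rw [mul_pow]; ring

theorem linInd_Yw (hG : IsOpen G) (w : ℕ → ℝ) (hw : Monotone w) (hw1 : ∀ j, 1 ≤ w j)
    (ζ : closure G) (g : JetSp G) (hg : g ∉ Yw w hw hw1 ζ) :
    LinearIndependent ℂ (fun t : ℝ => (Yw w hw hw1 ζ).mkQ (mE hG t g)) := by
  classical
  rw [linearIndependent_iff']
  intro s c hsum
  have hmem : (∑ t ∈ s, c t • mE hG t g) ∈ Yw w hw hw1 ζ := by
    exact mem_of_sum_mkQ _ s c _ hsum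
  obtain ⟨S, m0, hS⟩ := hmem
  set b : ℕ → ℂ := fun i =>
    (∑ t ∈ s, c t * Complex.exp ((t : ℂ) * (ζ : ℂ)) * (t : ℂ) ^ i) / (i.factorial : ℂ) with hb
  set a : ℕ → ℂ := fun k => evL k ζ g / (k.factorial : ℂ) with ha
  have hfac : ∀ j : ℕ, (0 : ℝ) < (j.factorial : ℝ) := fun j => by
    exact_mod_cast Nat.factorial_pos j
  have hconv : ∀ j, ‖∑ i ∈ Finset.range (j + 1), b i * a (j - i)‖ ≤
      (S : ℝ) ^ (j + 1) * w (j + m0) := by
    intro j
    have h1 := hS j
    rw [sum_mE_apply, norm_mul, Complex.norm_natCast] at h1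
    have h2 : (j.factorial : ℝ) * ‖∑ i ∈ Finset.range (j + 1), b i * a (j - i)‖ ≤
        (j.factorial : ℝ) * ((S : ℝ) ^ (j + 1) * w (j + m0)) := by
      refine h1.trans (le_of_eq ?_)
      ring
    exact le_of_mul_le_mul_left h2 (hfac j)
  by_cases hzero : ∀ i, b i = 0
  · have h1 : ∀ i : ℕ, ∑ t ∈ s, (c t * Complex.exp ((t : ℂ) * (ζ : ℂ))) * (t : ℂ) ^ i = 0 := by
      intro i
      have h2 := hzero i
      simp only [hb] at h2
      rcases div_eq_zero_iff.1 h2 with h3 | h3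
      · exact h3
      · exact absurd h3 (by exact_mod_cast Nat.factorial_ne_zero i)
    have h2 := coeff_zero_of_moments s (fun t => c t * Complex.exp ((t : ℂ) * (ζ : ℂ))) h1
    intro t ht
    rcases mul_eq_zero.1 (h2 t ht) with h3 | h3
    · exact h3
    · exact absurd h3 (Complex.exp_ne_zero _)
  · exfalso
    push Not at hzero
    have hm := Nat.find_spec hzero
    have hlt : ∀ i < Nat.find hzero, b i = 0 := fun i hi => by
      have := Nat.find_min hzero hi
      rwa [not_not] at this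
    -- geometric bound for b
    have hB : ∃ B : ℝ, ∀ i, ‖b i‖ ≤ B ^ (i + 1) := by
      set K : ℝ := ∑ t ∈ s, ‖c t * Complex.exp ((t : ℂ) * (ζ : ℂ))‖ with hK
      set T : ℝ := ∑ t ∈ s, |t| with hT
      have hK0 : 0 ≤ K := Finset.sum_nonneg fun _ _ => norm_nonneg _
      have hT0 : 0 ≤ T := Finset.sum_nonneg fun _ _ => abs_nonneg _
      refine ⟨K + T + 1, fun i => ?_⟩
      have h1 : ‖b i‖ ≤ K * T ^ i := by
        simp only [hb]
        rw [norm_div, Complex.norm_natCast]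
        have h2 : ‖∑ t ∈ s, c t * Complex.exp ((t : ℂ) * (ζ : ℂ)) * (t : ℂ) ^ i‖ ≤ K * T ^ i := by
          refine (norm_sum_le _ _).trans ?_
          rw [hK, Finset.sum_mul]
          apply Finset.sum_le_sum
          intro t ht
          rw [norm_mul _ ((t : ℂ) ^ i), norm_pow, Complex.norm_real, Real.norm_eq_abs]
          apply mul_le_mul_of_nonneg_left _ (norm_nonneg _)
          apply pow_le_pow_left₀ (abs_nonneg _)
          exact Finset.single_le_sum (f := fun t : ℝ => |t|) (fun _ _ => abs_nonneg _) ht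
        have h3 : (1 : ℝ) ≤ (i.factorial : ℝ) := by exact_mod_cast Nat.factorial_pos i
        refine (div_le_self (norm_nonneg _) h3).trans h2
      refine h1.trans ?_
      rw [pow_succ']
      apply mul_le_mul (by linarith) _ (by positivity) (by positivity)
      exact pow_le_pow_left₀ hT0 (by linarith) i
    obtain ⟨B, hB⟩ := hB
    obtain ⟨S', hS'⟩ := growth_w hm hlt hB (Nat.cast_nonneg S) (fun j => w (j + m0))
      (fun i j hij => hw (by omega)) (fun j => hw1 _) hconv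
    apply hg
    refine ⟨S', Nat.find hzero + m0, fun j => ?_⟩
    have h1 := hS' j
    simp only [ha] at h1
    rw [norm_div, Complex.norm_natCast, div_le_iff₀ (hfac j), add_assoc] at h1
    refine h1.trans (le_of_eq ?_)
    ring

/-- `Yw` is meagre at points which are nearest to some exterior point -/
theorem isMeagre_Yw (hG : IsOpen G) (w : ℕ → ℝ) (hw : Monotone w) (hw1 : ∀ j, 1 ≤ w j)
    (ζ : closure G)
    (hζ : ∃ b : ℂ, b ∉ closure G ∧ ∀ z ∈ closure G, ‖(ζ : ℂ) - b‖ ≤ ‖z - b‖) :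
    IsMeagre (Yw w hw hw1 ζ : Set (JetSp G)) := by
  have hU : (Yw w hw hw1 ζ : Set (JetSp G)) = ⋃ S : ℕ, ⋃ m : ℕ, {g : JetSp G | ∀ j : ℕ,
      ‖evL j ζ g‖ ≤ (S : ℝ) ^ (j + 1) * (j.factorial : ℝ) * w (j + m)} := by
    ext g
    simp only [mem_iUnion]
    rfl
  rw [hU]
  apply isMeagre_iUnion
  intro S
  apply isMeagre_iUnion
  intro m
  apply IsNowhereDense.isMeagre
  have hcl : IsClosed {g : JetSp G | ∀ j : ℕ,
      ‖evL j ζ g‖ ≤ (S : ℝ) ^ (j + 1) * (j.factorial : ℝ) * w (j + m)} := by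
    rw [Set.ofPred_forall]
    apply isClosed_iInter
    intro j
    exact isClosed_le (continuous_evL j ζ).norm continuous_const
  rw [hcl.isNowhereDense_iff, eq_empty_iff_forall_notMem]
  intro g hg
  obtain ⟨b, hb, hmin⟩ := hζ
  have hne : (ζ : ℂ) - b ≠ 0 := by
    intro h0
    apply hb
    have : (ζ : ℂ) = b := sub_eq_zero.1 h0
    rw [← this]
    exact ζ.2
  set d : ℝ := ‖(ζ : ℂ) - b‖ with hd
  have hd0 : 0 < d := norm_pos_iff.2 hne
  -- the exterior points
  let t : ℕ → ℝ := fun k => 1 / ((k : ℝ) + 1)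
  have ht0 : ∀ k, 0 < t k := fun k => by positivity
  have ht1 : ∀ k, t k ≤ 1 := fun k => by
    show 1 / ((k : ℝ) + 1) ≤ 1
    rw [div_le_one (by positivity)]
    have : (0 : ℝ) ≤ k := Nat.cast_nonneg k
    linarith
  let p : ℕ → ℂ := fun k => (ζ : ℂ) - (t k : ℂ) * ((ζ : ℂ) - b)
  have hp : ∀ k, ∀ z ∈ closure G, t k * d ≤ ‖z - p k‖ := by
    intro k z hz
    have h1 := hmin z hz
    have h2 : z - b = (z - p k) + (1 - (t k : ℂ)) * ((ζ : ℂ) - b) := by
      simp only [p]; ring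
    have h3 : ‖(1 - (t k : ℂ)) * ((ζ : ℂ) - b)‖ = (1 - t k) * d := by
      rw [norm_mul, ← hd]
      congr 1
      rw [show (1 - (t k : ℂ)) = ((1 - t k : ℝ) : ℂ) by push_cast; ring, Complex.norm_real,
        Real.norm_eq_abs, abs_of_nonneg (by linarith [ht1 k])]
    have h4 : ‖z - b‖ ≤ ‖z - p k‖ + (1 - t k) * d := by
      rw [h2, ← h3]
      exact norm_add_le _ _
    have h5 : d ≤ ‖z - b‖ := h1
    linarith
  have hpc : ∀ k, p k ∉ closure G := by
    intro k hk
    have := hp k _ hk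
    rw [sub_self, norm_zero] at this
    have := mul_pos (ht0 k) hd0
    linarith
  -- a basic neighbourhood
  have hA : {g : JetSp G | ∀ j : ℕ,
      ‖evL j ζ g‖ ≤ (S : ℝ) ^ (j + 1) * (j.factorial : ℝ) * w (j + m)} ∈ 𝓝 g :=
    mem_interior_iff_mem_nhds.1 hg
  have hind : IsInducing (JetSp.seq : JetSp G → ℕ → C(closure G, ℂ)) := ⟨rfl⟩
  rw [hind.nhds_eq_comap, mem_comap] at hA
  obtain ⟨s, hs, hsA⟩ := hA
  rw [nhds_pi, Filter.mem_pi] at hs
  obtain ⟨I, hI, u, hu, hus⟩ := hs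
  obtain ⟨N, hN⟩ := hI.bddAbove
  let h : ℕ → JetSp G := fun k => JetSp.mk' (poleJet (p k) (hpc k)) (poleJet_mem hG (p k) (hpc k))
  have hbound : ∀ k i (z : closure G), ‖(h k).seq i z‖ ≤ (i.factorial : ℝ) / (t k * d) ^ (i + 1) := by
    intro k i z
    have h1 : (h k).seq i z = (-1) ^ i * (i.factorial : ℂ) / ((z : ℂ) - p k) ^ (i + 1) := rfl
    rw [h1, norm_div, norm_mul, norm_pow, norm_pow, norm_neg, norm_one, one_pow, one_mul,
      Complex.norm_natCast]
    exact div_le_div_of_nonneg_left (Nat.cast_nonneg _)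
      (pow_pos (mul_pos (ht0 k) hd0) _)
      (pow_le_pow_left₀ (mul_pos (ht0 k) hd0).le (hp k z z.2) _)
  have htt : Tendsto t atTop (𝓝 0) := tendsto_one_div_add_atTop_nhds_zero_nat
  have hconv : ∀ i ∈ I, Tendsto (fun k => (g + ((t k ^ (N + 2) : ℝ) : ℂ) • h k).seq i) atTop
      (𝓝 (g.seq i)) := by
    intro i hi
    have hiN : i ≤ N := hN hi
    rw [ContinuousMap.tendsto_iff_forall_isCompact_tendstoUniformlyOn]
    intro K _
    rw [Metric.tendstoUniformlyOn_iff]
    intro ε hε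
    have h1 : Tendsto (fun k => t k * ((i.factorial : ℝ) / d ^ (i + 1))) atTop (𝓝 0) := by
      simpa using htt.mul_const ((i.factorial : ℝ) / d ^ (i + 1))
    filter_upwards [h1.eventually (gt_mem_nhds hε)] with k hk z _
    have h2 : (g + ((t k ^ (N + 2) : ℝ) : ℂ) • h k).seq i z =
        g.seq i z + ((t k ^ (N + 2) : ℝ) : ℂ) * (h k).seq i z := rfl
    rw [dist_comm, h2, dist_eq_norm, add_sub_cancel_left, norm_mul, Complex.norm_real,
      Real.norm_eq_abs, abs_of_pos (pow_pos (ht0 k) _)]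
    refine lt_of_le_of_lt ?_ hk
    have h3 := mul_le_mul_of_nonneg_left (hbound k i z) (pow_pos (ht0 k) (N + 2)).le
    refine h3.trans ?_
    have h4 : t k ^ (N + 2) * ((i.factorial : ℝ) / (t k * d) ^ (i + 1)) =
        t k ^ (N + 1 - i) * ((i.factorial : ℝ) / d ^ (i + 1)) := by
      have h5 : t k ^ (N + 2) = t k ^ (N + 1 - i) * t k ^ (i + 1) := by
        rw [← pow_add]; congr 1; omega
      rw [h5, mul_pow]
      have := (ht0 k).ne'
      field_simp
    rw [h4]
    apply mul_le_mul_of_nonneg_right _ (by positivity)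
    calc t k ^ (N + 1 - i) ≤ t k ^ 1 := pow_le_pow_of_le_one (ht0 k).le (ht1 k) (by omega)
      _ = t k := pow_one _
  have hev : ∀ᶠ k in atTop, ∀ i ∈ I, (g + ((t k ^ (N + 2) : ℝ) : ℂ) • h k).seq i ∈ u i := by
    rw [Filter.eventually_all_finite hI]
    intro i hi
    exact (hconv i hi).eventually (hu i)
  have hev2 : ∀ᶠ k in atTop, ‖evL (N + 2) ζ (g + ((t k ^ (N + 2) : ℝ) : ℂ) • h k)‖ ≤
      (S : ℝ) ^ (N + 2 + 1) * ((N + 2).factorial : ℝ) * w (N + 2 + m) := by
    filter_upwards [hev] with k hk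
    exact hsA (hus (fun i hi => hk i hi)) (N + 2)
  -- contradiction
  set M : ℝ := (S : ℝ) ^ (N + 2 + 1) * ((N + 2).factorial : ℝ) * w (N + 2 + m) +
    ‖evL (N + 2) ζ g‖ with hM
  have hlow : ∀ᶠ k in atTop, 1 ≤ t k * M * d ^ (N + 3) := by
    filter_upwards [hev2] with k hk
    have h1 : evL (N + 2) ζ (g + ((t k ^ (N + 2) : ℝ) : ℂ) • h k) = evL (N + 2) ζ g +
        ((t k ^ (N + 2) : ℝ) : ℂ) *
          ((-1) ^ (N + 2) * ((N + 2).factorial : ℂ) / ((ζ : ℂ) - p k) ^ (N + 2 + 1)) := by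
      rw [map_add, map_smul]
      rfl
    have h2 : (ζ : ℂ) - p k = (t k : ℂ) * ((ζ : ℂ) - b) := by simp only [p]; ring
    have h3 : ‖((t k ^ (N + 2) : ℝ) : ℂ) *
          ((-1) ^ (N + 2) * ((N + 2).factorial : ℂ) / ((ζ : ℂ) - p k) ^ (N + 2 + 1))‖ ≤ M := by
      have h4 : ((t k ^ (N + 2) : ℝ) : ℂ) *
          ((-1) ^ (N + 2) * ((N + 2).factorial : ℂ) / ((ζ : ℂ) - p k) ^ (N + 2 + 1)) =
          evL (N + 2) ζ (g + ((t k ^ (N + 2) : ℝ) : ℂ) • h k) - evL (N + 2) ζ g := by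
        rw [h1]; ring
      rw [h4, hM]
      exact (norm_sub_le _ _).trans (add_le_add hk le_rfl)
    rw [h2, norm_mul, norm_div, norm_mul, norm_pow, norm_pow, norm_mul, norm_neg, norm_one,
      one_pow, one_mul, Complex.norm_real, Complex.norm_real, Complex.norm_natCast, ← hd,
      Real.norm_eq_abs, Real.norm_eq_abs, abs_of_pos (ht0 k), abs_of_pos (pow_pos (ht0 k) _)] at h3
    have h5 : t k ^ (N + 2) * (((N + 2).factorial : ℝ) / (t k * d) ^ (N + 2 + 1)) =
        ((N + 2).factorial : ℝ) / (t k * d ^ (N + 3)) := by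
      have := (ht0 k).ne'
      rw [mul_pow]
      field_simp
      ring
    rw [h5, div_le_iff₀ (mul_pos (ht0 k) (pow_pos hd0 _))] at h3
    have h6 : (1 : ℝ) ≤ ((N + 2).factorial : ℝ) := by exact_mod_cast Nat.factorial_pos _
    calc (1 : ℝ) ≤ ((N + 2).factorial : ℝ) := h6
      _ ≤ M * (t k * d ^ (N + 3)) := h3
      _ = t k * M * d ^ (N + 3) := by ring
  have hlim : Tendsto (fun k => t k * M * d ^ (N + 3)) atTop (𝓝 0) := by
    simpa using (htt.mul_const M).mul_const (d ^ (N + 3))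
  obtain ⟨k, hk1, hk2⟩ := (hlow.and (hlim.eventually (gt_mem_nhds one_pos))).exists
  linarith

end Pool.Agent.KS6_17.BVS
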