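import Mathlib
import Pool.Agent.KS6_17.BVS.Weight
import Pool.Graph.R_seed8.Results.MP_2e37b9_an.IndependentBaireSubspaces

set_option autoImplicit false

open Set Topology Filter TopologicalSpace

namespace Pool.Agent.KS6_17.BVS

open Pool.Agent.H586R3
open Pool.Agent.Results.MP_2e37b9_an.DenseBaireSubspace
open Pool.Agent.Results.MP_2e37b9_an.IndependentBaireSubspaces

/-- the family of jets -/
theorem exists_jets_family_w {G : Set ℂ} (hG : IsOpen G) (hne : G.Nonempty) (Z : Set ℂ)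
    (hZ : Z.Countable) (hZG : Z ⊆ closure G)
    (hZe : ∀ ζ ∈ Z, ∀ ε : ℝ, 0 < ε → ∃ b, b ∉ closure G ∧ ‖ζ - b‖ < ε)
    (Q : Set ℂ) (hQ : Q.Countable) (hQG : Q ⊆ closure G)
    (hQe : ∀ ζ ∈ Q, ∃ b : ℂ, b ∉ closure G ∧ ∀ z ∈ closure G, ‖ζ - b‖ ≤ ‖z - b‖)
    (w : ℕ → ℝ) (hw : Monotone w) (hw1 : ∀ j, 1 ≤ w j)
    (R : Set (JetSp G)) (hR : R ∈ residual (JetSp G)) :
    ∃ B : ℝ → Set (JetSp G), (∀ t, B t ⊆ R) ∧ iSupIndep (fun t => Submodule.span ℂ (B t)) ∧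
      (∀ V : Submodule ℂ (JetSp G), (∃ t, B t ⊆ V) → Dense (V : Set (JetSp G)) ∧ BaireSpace V) ∧
      (∀ e ∈ Submodule.span ℂ (⋃ t, B t), e ≠ 0 → ∀ (ζ : ℂ) (hζ : ζ ∈ Z), e ∉ Yc ⟨ζ, hZG hζ⟩) ∧
      (∀ e ∈ Submodule.span ℂ (⋃ t, B t), e ≠ 0 → ∀ (ζ : ℂ) (hζ : ζ ∈ Q),
        e ∉ Yw w hw hw1 ⟨ζ, hQG hζ⟩) := by
  have hBaire := baire_JetSp hG
  have : Countable Z := hZ.to_subtype
  have : Countable Q := hQ.to_subtype
  set Y : Option (Z ⊕ Q) → Submodule ℂ (JetSp G) := fun o => match o with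
    | none => ⊥
    | some (Sum.inl ζ) => Yc ⟨ζ.1, hZG ζ.2⟩
    | some (Sum.inr ζ) => Yw w hw hw1 ⟨ζ.1, hQG ζ.2⟩ with hY
  obtain ⟨B, hB1, hB2, hB3, hB4⟩ := Pool.Agent.Y958.BF.exists_baire_family (mE hG) (continuous_mE hG) (continuous_mE' hG)
    (mE_zero hG) (mE_add hG) Y (by
      intro o
      match o with
      | none => exact isMeagre_bot hG hne
      | some (Sum.inl ζ) => exact isMeagre_Yc hG _ (hZe ζ.1 ζ.2)
      | some (Sum.inr ζ) => exact isMeagre_Yw hG w hw hw1 _ (hQe ζ.1 ζ.2)) (by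
      intro o g hg
      match o with
      | none => exact linInd_bot hG g hg
      | some (Sum.inl ζ) => exact linInd_Yc hG _ g hg
      | some (Sum.inr ζ) => exact linInd_Yw hG w hw hw1 _ g hg) R hR
  exact ⟨B, hB1, hB2, hB3,
    fun e he hne0 ζ hζ hmem => hne0 (hB4 (some (Sum.inl ⟨ζ, hζ⟩)) e he hmem),
    fun e he hne0 ζ hζ hmem => hne0 (hB4 (some (Sum.inr ⟨ζ, hζ⟩)) e he hmem)⟩

variable {G : Opens ℂ}

/-- The derivatives of `f` at the boundary point `ζ` grow faster than `W`: for every `C`, for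
infinitely many `j`, the `j`-th derivative of `f` has a limit `L` at `ζ` from inside of `G` and
`C ^ j * W j < ‖L‖`. -/
def GrowsFaster (G : Opens ℂ) (W : ℕ → ℝ) (f : ℂ → ℂ) (ζ : ℂ) : Prop :=
  ∀ C : ℝ, ∃ᶠ j in atTop, ∃ L : ℂ, Tendsto (iteratedDeriv j f) (𝓝[(G : Set ℂ)] ζ) (𝓝 L) ∧
    C ^ j * W j < ‖L‖

/-- a monotone weight above a given sequence -/
def wgt (W : ℕ → ℝ) (j : ℕ) : ℝ := 1 + ∑ i ∈ Finset.range (j + 1), |W i|

lemma wgt_mono (W : ℕ → ℝ) : Monotone (wgt W) := by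
  intro i j hij
  unfold wgt
  have : ∑ k ∈ Finset.range (i + 1), |W k| ≤ ∑ k ∈ Finset.range (j + 1), |W k| :=
    Finset.sum_le_sum_of_subset_of_nonneg (Finset.range_mono (by omega)) (fun _ _ _ => abs_nonneg _)
  linarith

lemma wgt_one (W : ℕ → ℝ) (j : ℕ) : 1 ≤ wgt W j := by
  unfold wgt
  have : 0 ≤ ∑ k ∈ Finset.range (j + 1), |W k| := Finset.sum_nonneg fun _ _ => abs_nonneg _
  linarith

lemma le_wgt (W : ℕ → ℝ) (j : ℕ) : |W j| ≤ wgt W j := by
  unfold wgt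
  have := Finset.single_le_sum (f := fun i => |W i|) (fun _ _ => abs_nonneg _)
    (Finset.mem_range.2 (Nat.lt_succ_self j))
  linarith

lemma grows_of {ζ : ℂ} (hζ : ζ ∈ closure (G : Set ℂ)) (W : ℕ → ℝ) (g : JetSp (G : Set ℂ))
    (h : g ∉ Yw (wgt W) (wgt_mono W) (wgt_one W) ⟨ζ, hζ⟩) :
    GrowsFaster G W (fnOf g) ζ := by
  intro C
  rw [frequently_atTop]
  intro n
  -- bound the first derivatives
  set D : ℝ := ∑ i ∈ Finset.range n, ‖evL i ⟨ζ, hζ⟩ g‖ with hD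
  have hD0 : 0 ≤ D := Finset.sum_nonneg fun _ _ => norm_nonneg _
  obtain ⟨S, hS⟩ := exists_nat_ge (max (max |C| 1) D)
  have hSC : |C| ≤ S := (le_max_left _ _).trans ((le_max_left _ _).trans hS)
  have hS1 : (1 : ℝ) ≤ S := (le_max_right _ _).trans ((le_max_left _ _).trans hS)
  have hSD : D ≤ S := (le_max_right _ _).trans hS
  have h1 : ¬ ∀ j : ℕ, ‖evL j ⟨ζ, hζ⟩ g‖ ≤ (S : ℝ) ^ (j + 1) * (j.factorial : ℝ) * wgt W (j + 0) :=
    fun hall => h ⟨S, 0, hall⟩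
  push Not at h1
  obtain ⟨j, hj⟩ := h1
  rw [add_zero] at hj
  have hfac : (1 : ℝ) ≤ (j.factorial : ℝ) := by exact_mod_cast Nat.factorial_pos j
  have hSj : (1 : ℝ) ≤ (S : ℝ) ^ j := one_le_pow₀ hS1
  have hw := wgt_one W j
  have hjn : n ≤ j := by
    by_contra hcon
    have h2 : ‖evL j ⟨ζ, hζ⟩ g‖ ≤ D :=
      Finset.single_le_sum (f := fun i => ‖evL i ⟨ζ, hζ⟩ g‖) (fun _ _ => norm_nonneg _)
        (Finset.mem_range.2 (not_le.1 hcon))
    have h3 : (S : ℝ) ≤ (S : ℝ) ^ (j + 1) * (j.factorial : ℝ) * wgt W j := by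
      have h4 : (S : ℝ) ≤ (S : ℝ) ^ (j + 1) := le_self_pow₀ hS1 (by omega)
      have h5 : (S : ℝ) ^ (j + 1) * 1 ≤ (S : ℝ) ^ (j + 1) * (j.factorial : ℝ) :=
        mul_le_mul_of_nonneg_left hfac (by positivity)
      have h6 : (S : ℝ) ^ (j + 1) * (j.factorial : ℝ) * 1 ≤
          (S : ℝ) ^ (j + 1) * (j.factorial : ℝ) * wgt W j :=
        mul_le_mul_of_nonneg_left hw (by positivity)
      linarith
    linarith
  refine ⟨j, hjn, evL j ⟨ζ, hζ⟩ g, ?_, lt_of_le_of_lt ?_ hj⟩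
  · rw [evL_eq_ext]
    have ht : Tendsto (ext (g.seq j)) (𝓝[(G : Set ℂ)] ζ) (𝓝 (ext (g.seq j) ζ)) :=
      ((continuousOn_ext (g.seq j)) ζ hζ).mono_left (nhdsWithin_mono _ subset_closure)
    refine ht.congr' ?_
    filter_upwards [self_mem_nhdsWithin] with w hw
    exact (iteratedDeriv_fnOf g j hw).symm
  · have h2 : C ^ j * W j ≤ |C| ^ j * |W j| := by
      rw [← abs_pow, ← abs_mul]
      exact le_abs_self _
    have h3 : |C| ^ j * |W j| ≤ (S : ℝ) ^ (j + 1) * wgt W j :=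
      mul_le_mul ((pow_le_pow_left₀ (abs_nonneg _) hSC j).trans
        (pow_le_pow_right₀ hS1 (Nat.le_succ j))) (le_wgt W j) (abs_nonneg _) (by positivity)
    have h4 : (S : ℝ) ^ (j + 1) * wgt W j ≤ (S : ℝ) ^ (j + 1) * (j.factorial : ℝ) * wgt W j := by
      apply mul_le_mul_of_nonneg_right _ (by linarith)
      exact le_mul_of_one_le_right (by positivity) hfac
    linarith

/-- the boundary points which are nearest to some exterior point are dense in the boundary -/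
lemma exists_nearest (hG : IsRegularDomain G) : ∃ Q : Set ℂ, Q.Countable ∧
    Q ⊆ frontier (G : Set ℂ) ∧ frontier (G : Set ℂ) ⊆ closure Q ∧
    ∀ ζ ∈ Q, ∃ b : ℂ, b ∉ closure (G : Set ℂ) ∧ ∀ z ∈ closure (G : Set ℂ), ‖ζ - b‖ ≤ ‖z - b‖ := by
  set P : Set ℂ := {ζ | ζ ∈ frontier (G : Set ℂ) ∧
    ∃ b : ℂ, b ∉ closure (G : Set ℂ) ∧ ∀ z ∈ closure (G : Set ℂ), ‖ζ - b‖ ≤ ‖z - b‖} with hP
  have hPd : frontier (G : Set ℂ) ⊆ closure P := by
    intro x hx
    rw [Metric.mem_closure_iff]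
    intro ε hε
    -- an exterior point near `x`
    obtain ⟨b, hb, hxb⟩ : ∃ b, b ∉ closure (G : Set ℂ) ∧ ‖x - b‖ < ε / 2 := by
      by_contra hcon
      push Not at hcon
      have h1 : Metric.ball x (ε / 2) ⊆ closure (G : Set ℂ) := by
        intro b hb
        by_contra hb2
        have := hcon b hb2
        rw [Metric.mem_ball, dist_comm, dist_eq_norm] at hb
        linarith
      have h2 : x ∈ interior (closure (G : Set ℂ)) :=
        mem_interior.2 ⟨Metric.ball x (ε / 2), h1, Metric.isOpen_ball,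
          Metric.mem_ball_self (by positivity)⟩
      rw [← hG.2] at h2
      rw [G.isOpen.frontier_eq] at hx
      exact hx.2 h2
    obtain ⟨ζ, hζ, hζb⟩ := isClosed_closure.exists_infDist_eq_dist
      (show (closure (G : Set ℂ)).Nonempty from ⟨x, frontier_subset_closure hx⟩) b
    have hmin : ∀ z ∈ closure (G : Set ℂ), ‖ζ - b‖ ≤ ‖z - b‖ := by
      intro z hz
      have h1 := Metric.infDist_le_dist_of_mem (x := b) hz
      rw [hζb, dist_comm, dist_eq_norm, dist_comm, dist_eq_norm] at h1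
      exact h1
    refine ⟨ζ, ⟨?_, b, hb, hmin⟩, ?_⟩
    · rw [G.isOpen.frontier_eq]
      refine ⟨hζ, fun hζG => ?_⟩
      -- an interior point is not nearest
      have hne : 0 < ‖ζ - b‖ := by
        rw [norm_pos_iff, sub_ne_zero]
        rintro rfl
        exact hb hζ
      have hcont : Tendsto (fun s : ℝ => ζ - (s : ℂ) * (ζ - b)) (𝓝[>] 0) (𝓝 ζ) := by
        have h1 : Continuous (fun s : ℝ => ζ - (s : ℂ) * (ζ - b)) := by fun_prop
        have h2 := h1.tendsto 0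
        simp only [Complex.ofReal_zero, zero_mul, sub_zero] at h2
        exact h2.mono_left nhdsWithin_le_nhds
      have e1 : ∀ᶠ s : ℝ in 𝓝[>] 0, ζ - (s : ℂ) * (ζ - b) ∈ (G : Set ℂ) :=
        hcont.eventually (G.isOpen.mem_nhds hζG)
      have e2 : ∀ᶠ s : ℝ in 𝓝[>] 0, s ∈ Ioi (0 : ℝ) := self_mem_nhdsWithin
      have e3 : ∀ᶠ s : ℝ in 𝓝[>] 0, s ∈ Iio (1 : ℝ) :=
        mem_nhdsWithin_of_mem_nhds (Iio_mem_nhds (zero_lt_one (α := ℝ)))
      obtain ⟨s, hs1, hs2, hs3⟩ := (e1.and (e2.and e3)).exists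
      have h3 := hmin _ (subset_closure hs1)
      have h4 : ζ - (s : ℂ) * (ζ - b) - b = ((1 - s : ℝ) : ℂ) * (ζ - b) := by push_cast; ring
      have hs2' : (0 : ℝ) < s := hs2
      have hs3' : s < 1 := hs3
      rw [h4, norm_mul, Complex.norm_real, Real.norm_eq_abs, abs_of_pos (by linarith)] at h3
      nlinarith
    · have h1 := hmin x (frontier_subset_closure hx)
      calc dist x ζ = ‖(x - b) - (ζ - b)‖ := by rw [dist_eq_norm]; congr 1; ring
        _ ≤ ‖x - b‖ + ‖ζ - b‖ := norm_sub_le _ _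
        _ < ε := by linarith
  obtain ⟨s, hs, hsd⟩ := TopologicalSpace.exists_countable_dense ↥P
  refine ⟨Subtype.val '' s, hs.image _, ?_, ?_, ?_⟩
  · rintro _ ⟨y, _, rfl⟩
    exact y.2.1
  · have h1 : P ⊆ closure (Subtype.val '' s) := by
      intro x hx
      have h2 : (⟨x, hx⟩ : P) ∈ closure s := hsd _
      exact image_closure_subset_closure_image continuous_subtype_val ⟨_, h2, rfl⟩
    exact hPd.trans (closure_minimal h1 isClosed_closure)
  · rintro _ ⟨y, _, rfl⟩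
    exact y.2.2

end Pool.Agent.KS6_17.BVS
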